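import Pool.Agent.T9h20.TG.Spec2

set_option autoImplicit false

open MeasureTheory Set Filter Topology

namespace Pool.Agent.T9h12.TG

open Pool.Agent.T9h20.TA (mon mx)
open Pool.Agent.T9h20.TE (DD)
open Pool.Agent.T9h20.TF (Fr Fc MM)
open Pool.Agent.T9h20.TG

lemma MM_nn {k q t : ℕ} [NeZero t] (b d : Fin k → ℝ) (al : Fin k → Fin q → ℕ)
    (c a : Fin q → Fin t → ℝ) (i : Fin k) (y : ℝ) : 0 ≤ MM b d al c a i y := by
  unfold MM
  have : 0 ≤ ∏ j, mx (c j) (a j) y ^ al i j :=
    Finset.prod_nonneg fun j _ => pow_nonneg (abs_nonneg _) _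
  positivity

lemma prodT {q : ℕ} (T : ℝ) (M : Fin q → ℝ) (al : Fin q → ℕ) :
    ∏ j, (T * M j) ^ al j = T ^ (∑ j, al j) * ∏ j, M j ^ al j := by
  simp_rw [mul_pow]
  rw [Finset.prod_mul_distrib, Finset.prod_pow_eq_pow_sum]

theorem sGap (prod : SProd) (fac : SFac) (size : SSize) : SGap := by
  intro k q t m _ b d al c a hal s0 p r hpr hc hb hD
  obtain ⟨hMM, B, hcard, hpB, hrB, hBI, hB⟩ := size k q t b d al c a s0 p r hpr hc hb hD
  refine ⟨B, hcard, hpB, hrB, hBI, ?_⟩
  intro c' hc' G y y' hG hy hy' hfar hsep hzero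
  obtain ⟨i0, hi0⟩ := hB G y y' hG hy hy' hfar hsep
  have hT : (1:ℝ) ≤ 2 * t := by
    have h0 : 1 ≤ t := Nat.one_le_iff_ne_zero.2 (NeZero.ne t)
    have : (1:ℝ) ≤ t := by exact_mod_cast h0
    linarith
  have hT0 : (0:ℝ) ≤ 2 * t := zero_le_one.trans hT
  set E : Fin k → ℕ := fun i => d i + ∑ j, al i j * a j (s0 j) with hE
  set kap : Fin q → ℝ := fun j => ∑ s ∈ Finset.univ.filter (fun s => a j s = a j (s0 j)), c' j s
    with hkap
  set K : Fin k → ℝ := fun i => b i * ∏ j, kap j ^ al i j with hK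
  set κ : ℝ := ∑ i ∈ Finset.univ.filter (fun i => E i = E i0), K i with hκ
  set C : ℝ := k * (m + 1) * (2 * t : ℝ) ^ m with hC
  have ex : ∀ i x, b i * Real.exp ((d i : ℝ) * x) *
      ∏ j, (Real.exp ((a j (s0 j) : ℝ) * x) * kap j) ^ al i j = Real.exp ((E i : ℝ) * x) * K i := by
    intro i x
    have h1 : ∏ j, (Real.exp ((a j (s0 j) : ℝ) * x) * kap j) ^ al i j =
        Real.exp (((∑ j, al i j * a j (s0 j) : ℕ) : ℝ) * x) * ∏ j, kap j ^ al i j := by
      simp only [mul_pow, Finset.prod_mul_distrib]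
      congr 1
      push_cast
      rw [Finset.sum_mul, Real.exp_sum]
      refine Finset.prod_congr rfl fun j _ => ?_
      rw [← Real.exp_nat_mul, mul_assoc]
    rw [h1]
    simp only [hE, hK]
    rw [Nat.cast_add, add_mul, Real.exp_add]
    ring
  have key : ∀ x : ℝ, p + G ≤ x → x + G ≤ r → (∀ i,
      MM b (fun i => (d i : ℝ)) al c (fun j s => (a j s : ℝ)) i x ≤
          MM b (fun i => (d i : ℝ)) al c (fun j s => (a j s : ℝ)) i0 x ∧
        (E i ≠ E i0 →
          MM b (fun i => (d i : ℝ)) al c (fun j s => (a j s : ℝ)) i x ≤ Real.exp (-G) *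
            MM b (fun i => (d i : ℝ)) al c (fun j s => (a j s : ℝ)) i0 x)) →
      |Fr b (fun i => (d i : ℝ)) al c' (fun j s => (a j s : ℝ)) x - Real.exp ((E i0 : ℝ) * x) * κ| ≤
        C * Real.exp (-G) * MM b (fun i => (d i : ℝ)) al c (fun j s => (a j s : ℝ)) i0 x := by
    intro x hx1 hx2 hi
    have hf := fun j => fac t (c j) (c' j) (a j) (s0 j) p r G x hG.le (hc' j) (hD j).1 (hD j).2 hx1 hx2
    set X : Fin q → ℝ := fun j => ∑ s, mon (c' j) (fun s => (a j s : ℝ)) s x with hX
    set W : Fin q → ℝ := fun j => Real.exp ((a j (s0 j) : ℝ) * x) * kap j with hW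
    set M : Fin q → ℝ := fun j => mx (c j) (fun s => (a j s : ℝ)) x with hM
    have hM0 : ∀ j, 0 ≤ M j := fun j => abs_nonneg _
    have hf' : ∀ j, 0 ≤ M j ∧ |X j| ≤ (2 * t) * M j ∧ |W j| ≤ (2 * t) * M j ∧
        |X j - W j| ≤ Real.exp (-G) * ((2 * t) * M j) := fun j => ⟨hM0 j, hf j⟩
    have hdiff : ∀ i, |∏ j, X j ^ al i j - ∏ j, W j ^ al i j| ≤
        m * Real.exp (-G) * (2 * t : ℝ) ^ m * ∏ j, M j ^ al i j := fun i =>
      prod q m (al i) X W M (2 * t) (Real.exp (-G)) hT (Real.exp_pos _).le (hal i) hf'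
    have hP0 : ∀ i, 0 ≤ ∏ j, M j ^ al i j := fun i =>
      Finset.prod_nonneg fun j _ => pow_nonneg (hM0 j) _
    have hsz : ∀ i, |∏ j, X j ^ al i j| ≤ (2 * t : ℝ) ^ m * ∏ j, M j ^ al i j := by
      intro i
      rw [Finset.abs_prod]
      calc ∏ j, |X j ^ al i j| ≤ ∏ j, ((2 * t) * M j) ^ al i j := by
            refine Finset.prod_le_prod (fun j _ => abs_nonneg _) fun j _ => ?_
            rw [abs_pow]
            exact pow_le_pow_left₀ (abs_nonneg _) (hf' j).2.1 _
        _ = (2 * t : ℝ) ^ (∑ j, al i j) * ∏ j, M j ^ al i j := by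
            exact prodT (2 * t) M (al i)
        _ ≤ _ := by
            have := pow_le_pow_right₀ hT (hal i)
            have h0 := hP0 i
            gcongr
    have e2 : Real.exp ((E i0 : ℝ) * x) * κ =
        ∑ i, if E i = E i0 then Real.exp ((E i : ℝ) * x) * K i else 0 := by
      rw [hκ, Finset.mul_sum, Finset.sum_filter]
      refine Finset.sum_congr rfl fun i _ => ?_
      split_ifs with h
      · rw [h]
      · rfl
    rw [e2]
    have e3 : Fr b (fun i => (d i : ℝ)) al c' (fun j s => (a j s : ℝ)) x =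
      ∑ i, b i * Real.exp ((d i : ℝ) * x) * ∏ j, X j ^ al i j := rfl
    rw [e3, ← Finset.sum_sub_distrib]
    refine (Finset.abs_sum_le_sum_abs _ _).trans ?_
    have hMi : ∀ i, MM b (fun i => (d i : ℝ)) al c (fun j s => (a j s : ℝ)) i x =
      |b i| * Real.exp ((d i : ℝ) * x) * ∏ j, M j ^ al i j := fun i => rfl
    have hN0 : 0 ≤ MM b (fun i => (d i : ℝ)) al c (fun j s => (a j s : ℝ)) i0 x := MM_nn _ _ _ _ _ _ _
    have hpw : (0:ℝ) ≤ (2 * t : ℝ) ^ m := pow_nonneg hT0 _
    have hex := (Real.exp_pos (-G)).le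
    calc ∑ i, |b i * Real.exp ((d i : ℝ) * x) * ∏ j, X j ^ al i j -
          (if E i = E i0 then Real.exp ((E i : ℝ) * x) * K i else 0)|
        ≤ ∑ _i : Fin k, ((m + 1) * (2 * t : ℝ) ^ m) * Real.exp (-G) *
          MM b (fun i => (d i : ℝ)) al c (fun j s => (a j s : ℝ)) i0 x := by
          refine Finset.sum_le_sum fun i _ => ?_
          split_ifs with h
          · rw [← ex i x]
            have e4 : b i * Real.exp ((d i : ℝ) * x) * ∏ j, X j ^ al i j -
                b i * Real.exp ((d i : ℝ) * x) *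
                  ∏ j, (Real.exp ((a j (s0 j) : ℝ) * x) * kap j) ^ al i j =
                b i * Real.exp ((d i : ℝ) * x) * (∏ j, X j ^ al i j - ∏ j, W j ^ al i j) := by
              simp only [hW]; ring
            rw [e4, abs_mul, abs_mul, Real.abs_exp]
            calc |b i| * Real.exp ((d i : ℝ) * x) * |∏ j, X j ^ al i j - ∏ j, W j ^ al i j|
                ≤ |b i| * Real.exp ((d i : ℝ) * x) *
                  (m * Real.exp (-G) * (2 * t : ℝ) ^ m * ∏ j, M j ^ al i j) := by
                  have := hdiff i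
                  gcongr
              _ = (m * (2 * t : ℝ) ^ m * Real.exp (-G)) *
                  MM b (fun i => (d i : ℝ)) al c (fun j s => (a j s : ℝ)) i x := by
                  rw [hMi]; ring
              _ ≤ (m * (2 * t : ℝ) ^ m * Real.exp (-G)) *
                  MM b (fun i => (d i : ℝ)) al c (fun j s => (a j s : ℝ)) i0 x := by
                  have := (hi i).1
                  gcongr
              _ ≤ _ := by
                  have : 0 ≤ (2 * t : ℝ) ^ m * Real.exp (-G) *
                    MM b (fun i => (d i : ℝ)) al c (fun j s => (a j s : ℝ)) i0 x := by positivity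
                  nlinarith
          · rw [sub_zero, abs_mul, abs_mul, Real.abs_exp]
            calc |b i| * Real.exp ((d i : ℝ) * x) * |∏ j, X j ^ al i j|
                ≤ |b i| * Real.exp ((d i : ℝ) * x) * ((2 * t : ℝ) ^ m * ∏ j, M j ^ al i j) := by
                  have := hsz i
                  gcongr
              _ = (2 * t : ℝ) ^ m * MM b (fun i => (d i : ℝ)) al c (fun j s => (a j s : ℝ)) i x := by
                  rw [hMi]; ring
              _ ≤ (2 * t : ℝ) ^ m * (Real.exp (-G) *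
                  MM b (fun i => (d i : ℝ)) al c (fun j s => (a j s : ℝ)) i0 x) := by
                  have := (hi i).2 h
                  gcongr
              _ ≤ _ := by
                  have : 0 ≤ (m : ℝ) * ((2 * t : ℝ) ^ m * Real.exp (-G) *
                    MM b (fun i => (d i : ℝ)) al c (fun j s => (a j s : ℝ)) i0 x) := by positivity
                  nlinarith
      _ = _ := by
          rw [Finset.sum_const, Finset.card_univ, Fintype.card_fin, nsmul_eq_mul, hC]
          ring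
  have hbd : ∀ x ∈ ({y, y'} : Set ℝ), p + G ≤ x ∧ x + G ≤ r := by
    intro x hx
    rcases hx with rfl | hx
    · have h1 := (hfar p hpB).1
      have h2 := (hfar r hrB).1
      rw [abs_of_nonneg (by linarith [hy.1])] at h1
      rw [abs_of_nonpos (by linarith [hy.2])] at h2
      exact ⟨by linarith, by linarith⟩
    · rw [mem_singleton_iff] at hx
      subst hx
      have h1 := (hfar p hpB).2
      have h2 := (hfar r hrB).2
      rw [abs_of_nonneg (by linarith [hy'.1])] at h1
      rw [abs_of_nonpos (by linarith [hy'.2])] at h2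
      exact ⟨by linarith, by linarith⟩
  have ky := key y (hbd y (by simp)).1 (hbd y (by simp)).2 fun i => hi0 i y (by simp)
  have ky' := key y' (hbd y' (by simp)).1 (hbd y' (by simp)).2 fun i => hi0 i y' (by simp)
  rw [hzero, zero_sub, abs_neg] at ky'
  refine ⟨i0, ?_⟩
  have hm := hMM y' hy' y hy i0
  have h5 : |Real.exp ((E i0 : ℝ) * y) * κ| ≤ C * Real.exp (-G) *
      MM b (fun i => (d i : ℝ)) al c (fun j s => (a j s : ℝ)) i0 y := by
    have e5 : Real.exp ((E i0 : ℝ) * y) * κ =
        Real.exp ((E i0 : ℝ) * (y - y')) * (Real.exp ((E i0 : ℝ) * y') * κ) := by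
      rw [← mul_assoc, ← Real.exp_add]
      ring_nf
    rw [e5, abs_mul, Real.abs_exp, hm]
    calc Real.exp ((E i0 : ℝ) * (y - y')) * |Real.exp ((E i0 : ℝ) * y') * κ|
        ≤ Real.exp ((E i0 : ℝ) * (y - y')) * (C * Real.exp (-G) *
          MM b (fun i => (d i : ℝ)) al c (fun j s => (a j s : ℝ)) i0 y') := by gcongr
      _ = _ := by ring
  calc |Fr b (fun i => (d i : ℝ)) al c' (fun j s => (a j s : ℝ)) y|
      = |(Fr b (fun i => (d i : ℝ)) al c' (fun j s => (a j s : ℝ)) y -
          Real.exp ((E i0 : ℝ) * y) * κ) + Real.exp ((E i0 : ℝ) * y) * κ| := by ring_nf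
    _ ≤ |Fr b (fun i => (d i : ℝ)) al c' (fun j s => (a j s : ℝ)) y -
          Real.exp ((E i0 : ℝ) * y) * κ| + |Real.exp ((E i0 : ℝ) * y) * κ| := abs_add_le _ _
    _ ≤ C * Real.exp (-G) * MM b (fun i => (d i : ℝ)) al c (fun j s => (a j s : ℝ)) i0 y +
        C * Real.exp (-G) * MM b (fun i => (d i : ℝ)) al c (fun j s => (a j s : ℝ)) i0 y := by
        gcongr
    _ = _ := by ring

end Pool.Agent.T9h12.TG
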