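import Pool.Agent.T9h20.TG.Spec2

set_option autoImplicit false

open Finset

namespace Pool.Agent.T9h12.TG

lemma pow_le (x P : ℝ) (h : |x| ≤ P) (n : ℕ) : |x ^ n| ≤ P ^ n := by
  rw [abs_pow]; exact pow_le_pow_left₀ (abs_nonneg _) h n

lemma pow_diff {x w P δ : ℝ} (hx : |x| ≤ P) (hw : |w| ≤ P) (hd : |x - w| ≤ δ * P) (n : ℕ) :
    |x ^ n - w ^ n| ≤ n * δ * P ^ n := by
  have hP : 0 ≤ P := (abs_nonneg _).trans hx
  induction n with
  | zero => simp
  | succ n ih =>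
    have e : x ^ (n + 1) - w ^ (n + 1) = x ^ n * (x - w) + (x ^ n - w ^ n) * w := by ring
    rw [e]
    calc |x ^ n * (x - w) + (x ^ n - w ^ n) * w|
        ≤ |x ^ n * (x - w)| + |(x ^ n - w ^ n) * w| := abs_add_le _ _
      _ = |x ^ n| * |x - w| + |x ^ n - w ^ n| * |w| := by rw [abs_mul, abs_mul]
      _ ≤ P ^ n * (δ * P) + (n * δ * P ^ n) * P := by
        have h1 := pow_le x P hx n
        have h2 : (0:ℝ) ≤ n * δ * P ^ n := (abs_nonneg _).trans ih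
        gcongr
      _ = ((n + 1 : ℕ) : ℝ) * δ * P ^ (n + 1) := by push_cast; ring

lemma prod_diff {ι : Type} [DecidableEq ι] (al : ι → ℕ) (x w P : ι → ℝ) (δ : ℝ) (hδ : 0 ≤ δ)
    (h : ∀ j, |x j| ≤ P j ∧ |w j| ≤ P j ∧ |x j - w j| ≤ δ * P j) (s : Finset ι) :
    |∏ j ∈ s, x j ^ al j| ≤ ∏ j ∈ s, P j ^ al j ∧ |∏ j ∈ s, w j ^ al j| ≤ ∏ j ∈ s, P j ^ al j ∧
    |∏ j ∈ s, x j ^ al j - ∏ j ∈ s, w j ^ al j| ≤
      (∑ j ∈ s, al j : ℕ) * δ * ∏ j ∈ s, P j ^ al j := by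
  have hP : ∀ j, 0 ≤ P j := fun j => (abs_nonneg _).trans (h j).1
  induction s using Finset.induction_on with
  | empty => simp
  | insert j s hj ih =>
    obtain ⟨h1, h2, h3⟩ := ih
    rw [prod_insert hj, prod_insert hj, prod_insert hj, sum_insert hj]
    obtain ⟨hx, hw, hd⟩ := h j
    have a1 := pow_le _ _ hx (al j)
    have a2 := pow_le _ _ hw (al j)
    have a3 := pow_diff hx hw hd (al j)
    have hPj : 0 ≤ P j ^ al j := pow_nonneg (hP j) _
    have hPs : 0 ≤ ∏ j ∈ s, P j ^ al j := prod_nonneg fun i _ => pow_nonneg (hP i) _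
    refine ⟨?_, ?_, ?_⟩
    · rw [abs_mul]; gcongr
    · rw [abs_mul]; gcongr
    · set A := ∏ j ∈ s, x j ^ al j
      set B := ∏ j ∈ s, w j ^ al j
      set Q := ∏ j ∈ s, P j ^ al j
      have e : x j ^ al j * A - w j ^ al j * B = x j ^ al j * (A - B) +
        (x j ^ al j - w j ^ al j) * B := by ring
      rw [e]
      calc |x j ^ al j * (A - B) + (x j ^ al j - w j ^ al j) * B|
          ≤ |x j ^ al j * (A - B)| + |(x j ^ al j - w j ^ al j) * B| := abs_add_le _ _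
        _ = |x j ^ al j| * |A - B| + |x j ^ al j - w j ^ al j| * |B| := by rw [abs_mul, abs_mul]
        _ ≤ P j ^ al j * ((∑ j ∈ s, al j : ℕ) * δ * Q) + (al j * δ * P j ^ al j) * Q := by
          have h5 : (0:ℝ) ≤ al j * δ * P j ^ al j := (abs_nonneg _).trans a3
          gcongr
        _ = ((al j + ∑ j ∈ s, al j : ℕ) : ℝ) * δ * (P j ^ al j * Q) := by push_cast; ring

theorem sProd : Pool.Agent.T9h20.TG.SProd := by
  intro q m al x w M T δ hT hδ hal h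
  have hT0 : 0 ≤ T := zero_le_one.trans hT
  have key := (prod_diff al x w (fun j => T * M j) δ hδ (fun j => (h j).2) Finset.univ).2.2
  have e : ∏ j, (T * M j) ^ al j = T ^ (∑ j, al j) * ∏ j, M j ^ al j := by
    simp_rw [mul_pow]
    rw [prod_mul_distrib, prod_pow_eq_pow_sum]
  rw [e] at key
  refine key.trans ?_
  have hM : 0 ≤ ∏ j, M j ^ al j := prod_nonneg fun i _ => pow_nonneg (h i).1 _
  have h1 : ((∑ j, al j : ℕ) : ℝ) ≤ m := by exact_mod_cast hal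
  have h2 : T ^ (∑ j, al j) ≤ T ^ m := pow_le_pow_right₀ hT hal
  calc ((∑ j, al j : ℕ) : ℝ) * δ * (T ^ (∑ j, al j) * ∏ j, M j ^ al j)
      ≤ (m : ℝ) * δ * (T ^ m * ∏ j, M j ^ al j) := by gcongr
    _ = _ := by ring

end Pool.Agent.T9h12.TG
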